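import Mathlib

namespace Pool.Agent.H46.Sq

def red (M s : ℕ) : ℕ := cond (Nat.ble M s) (Nat.add (Nat.mod s M) M) s

def bit (m s : ℕ) : Bool := Nat.beq (Nat.mod (Nat.shiftRight m s) 2) 1

def gd (s : ℕ) : Bool := bit 1128430269653696552505663664688505519051893948117725342710889177313125173531991971431912449105663319710389835206952064698470434470736461660066558622596916755920725333398318411727317171467152749222827072964406762627475238723164279429015821933932310272216658086878944550997876773011269580573517676464873274539488066702232914244598239732635900656816339253220563488931858 (red 960 s)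

def gs (s : ℕ) : Bool := bit 32592575621351893172384368330745474147808502986562833280162912830234140272244139285773615122 (red 240 s)

def sq (t : ℕ) : Bool := bit 14663118806259180238408243071060780905187008920247752034030028540026156530118161691821559769517405797461832133443680049291283517799505043832929395084821122748860099789310180951435618146488407042722179242569344781358285479642986819273364651549499985035795 t

def allB (n : ℕ) (f : ℕ → Bool) : Bool := Nat.rec true (fun i r => and (f i) r) n

def anyB (n : ℕ) (f : ℕ → Bool) : Bool := Nat.rec false (fun i r => or (f i) r) n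

def gen (n a b c : ℕ) : Bool := anyB (Nat.succ n) fun x => anyB (Nat.succ n) fun y =>
  and (Nat.ble (Nat.add (Nat.mul x x) (Nat.mul y y)) (Nat.mul n n)) (anyB (Nat.succ n) fun z =>
    and (Nat.ble (Nat.add (Nat.add (Nat.mul x x) (Nat.mul y y)) (Nat.mul z z)) (Nat.mul n n))
      (and (sq (Nat.sub (Nat.mul n n) (Nat.add (Nat.add (Nat.mul x x) (Nat.mul y y)) (Nat.mul z z))))
        (gd (Nat.add (Nat.add (Nat.mul a x) (Nat.mul b y)) (Nat.mul c z)))))

def lit3 (g : ℕ → Bool) (a b c : ℕ) : Bool :=
  or (g (Nat.mul c 3))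
    (or (g (Nat.add b (Nat.mul c 2)))
    (or (g (Nat.add (Nat.mul b 2) c))
    (or (g (Nat.add (Nat.mul b 2) (Nat.mul c 2)))
    (or (g (Nat.mul b 3))
    (or (g (Nat.add a (Nat.mul c 2)))
    (or (g (Nat.add a (Nat.mul b 2)))
    (or (g (Nat.add (Nat.add a (Nat.mul b 2)) (Nat.mul c 2)))
    (or (g (Nat.add (Nat.mul a 2) c))
    (or (g (Nat.add (Nat.mul a 2) (Nat.mul c 2)))
    (or (g (Nat.add (Nat.mul a 2) b))
    (or (g (Nat.add (Nat.add (Nat.mul a 2) b) (Nat.mul c 2)))
    (or (g (Nat.add (Nat.mul a 2) (Nat.mul b 2)))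
    (or (g (Nat.add (Nat.add (Nat.mul a 2) (Nat.mul b 2)) c))
    (g (Nat.mul a 3)))))))))))))))

def lit6 (g : ℕ → Bool) (a b c : ℕ) : Bool :=
  or (g (Nat.mul c 6))
    (or (g (Nat.add (Nat.mul b 2) (Nat.mul c 4)))
    (or (g (Nat.add (Nat.mul b 4) (Nat.mul c 2)))
    (or (g (Nat.add (Nat.mul b 4) (Nat.mul c 4)))
    (or (g (Nat.mul b 6))
    (or (g (Nat.add (Nat.add a b) (Nat.mul c 3)))
    (or (g (Nat.add (Nat.add a b) (Nat.mul c 5)))
    (or (g (Nat.add (Nat.add a (Nat.mul b 3)) c))
    (or (g (Nat.add (Nat.add a (Nat.mul b 3)) (Nat.mul c 5)))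
    (or (g (Nat.add (Nat.add a (Nat.mul b 5)) c))
    (or (g (Nat.add (Nat.add a (Nat.mul b 5)) (Nat.mul c 3)))
    (or (g (Nat.add (Nat.mul a 2) (Nat.mul c 4)))
    (or (g (Nat.add (Nat.mul a 2) (Nat.mul b 4)))
    (or (g (Nat.add (Nat.add (Nat.mul a 2) (Nat.mul b 4)) (Nat.mul c 4)))
    (or (g (Nat.add (Nat.add (Nat.mul a 3) b) c))
    (or (g (Nat.add (Nat.add (Nat.mul a 3) b) (Nat.mul c 5)))
    (or (g (Nat.add (Nat.add (Nat.mul a 3) (Nat.mul b 3)) (Nat.mul c 3)))
    (or (g (Nat.add (Nat.add (Nat.mul a 3) (Nat.mul b 5)) c))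
    (or (g (Nat.add (Nat.mul a 4) (Nat.mul c 2)))
    (or (g (Nat.add (Nat.mul a 4) (Nat.mul c 4)))
    (or (g (Nat.add (Nat.mul a 4) (Nat.mul b 2)))
    (or (g (Nat.add (Nat.add (Nat.mul a 4) (Nat.mul b 2)) (Nat.mul c 4)))
    (or (g (Nat.add (Nat.mul a 4) (Nat.mul b 4)))
    (or (g (Nat.add (Nat.add (Nat.mul a 4) (Nat.mul b 4)) (Nat.mul c 2)))
    (or (g (Nat.add (Nat.add (Nat.mul a 5) b) c))
    (or (g (Nat.add (Nat.add (Nat.mul a 5) b) (Nat.mul c 3)))
    (or (g (Nat.add (Nat.add (Nat.mul a 5) (Nat.mul b 3)) c))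
    (g (Nat.mul a 6))))))))))))))))))))))))))))

def m4 (a b c : ℕ) : Bool :=
  and (Nat.beq (Nat.mod a 4) 0) (and (Nat.beq (Nat.mod b 4) 0) (Nat.beq (Nat.mod c 4) 0))

def p1 (g : ℕ → Bool) (a b c : ℕ) : Bool := and (not (m4 a b c)) (and (lit3 g a b c) (lit6 g a b c))

def p2 (a b c : ℕ) : Bool := and (p1 gd a b c)
  ([7, 9, 11, 13, 14, 18, 22, 23, 26, 29].all fun n => gen n a b c)

def fin (a b c : ℕ) : Bool :=
  or (and (Nat.beq a 1) (and (Nat.beq b 2) (Nat.beq c 3))) (not (p2 a b c))

def chkB (a b : ℕ) : Bool := allB 480 fun c => or (Nat.beq c 0) (or (not (p1 gs a b c))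
  (cond (Nat.ble 240 c) (allB 7 fun j => fin a b (Nat.add c (Nat.mul j 240))) (fin a b c)))

def tA (a b c : ℕ) : Bool :=
  or (Nat.beq c 0) (or (not (gs (Nat.add (Nat.add a b) c))) (not (p1 gs a b c)))

def chkA (a : ℕ) : Bool := allB 480 fun b => or (Nat.beq b 0) ([1, 4, 16, 64].all fun g =>
  and (tA a b (Nat.mod (Nat.sub (Nat.add g 960) (Nat.add a b)) 240))
    (tA a b (Nat.add (Nat.mod (Nat.sub (Nat.add g 960) (Nat.add a b)) 240) 240)))

lemma A1 : chkA 1 = true := by decide +kernel

lemma A4 : chkA 4 = true := by decide +kernel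

lemma A16 : chkA 16 = true := by decide +kernel

lemma A64 : chkA 64 = true := by decide +kernel

lemma A256 : chkA 256 = true := by decide +kernel

lemma A304 : chkA 304 = true := by decide +kernel

lemma B1_2 : chkB 1 2 = true := by decide +kernel

lemma B1_8 : chkB 1 8 = true := by decide +kernel

lemma B1_32 : chkB 1 32 = true := by decide +kernel

lemma B1_128 : chkB 1 128 = true := by decide +kernel

lemma B1_512 : chkB 1 512 = true := by decide +kernel

lemma B1_1088 : chkB 1 1088 = true := by decide +kernel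

lemma B1_1472 : chkB 1 1472 = true := by decide +kernel

lemma B4_2 : chkB 4 2 = true := by decide +kernel

lemma B4_8 : chkB 4 8 = true := by decide +kernel

lemma B4_32 : chkB 4 32 = true := by decide +kernel

lemma B4_128 : chkB 4 128 = true := by decide +kernel

lemma B4_512 : chkB 4 512 = true := by decide +kernel

lemma B4_1088 : chkB 4 1088 = true := by decide +kernel

lemma B4_1472 : chkB 4 1472 = true := by decide +kernel

lemma B16_2 : chkB 16 2 = true := by decide +kernel

lemma B16_8 : chkB 16 8 = true := by decide +kernel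

lemma B16_32 : chkB 16 32 = true := by decide +kernel

lemma B16_128 : chkB 16 128 = true := by decide +kernel

lemma B16_512 : chkB 16 512 = true := by decide +kernel

lemma B16_1088 : chkB 16 1088 = true := by decide +kernel

lemma B16_1472 : chkB 16 1472 = true := by decide +kernel

lemma B64_2 : chkB 64 2 = true := by decide +kernel

lemma B64_8 : chkB 64 8 = true := by decide +kernel

lemma B64_32 : chkB 64 32 = true := by decide +kernel

lemma B64_128 : chkB 64 128 = true := by decide +kernel

lemma B64_512 : chkB 64 512 = true := by decide +kernel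

lemma B64_1088 : chkB 64 1088 = true := by decide +kernel

lemma B64_1472 : chkB 64 1472 = true := by decide +kernel

lemma B256_2 : chkB 256 2 = true := by decide +kernel

lemma B256_8 : chkB 256 8 = true := by decide +kernel

lemma B256_32 : chkB 256 32 = true := by decide +kernel

lemma B256_128 : chkB 256 128 = true := by decide +kernel

lemma B256_512 : chkB 256 512 = true := by decide +kernel

lemma B256_1088 : chkB 256 1088 = true := by decide +kernel

lemma B256_1472 : chkB 256 1472 = true := by decide +kernel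

lemma B1024_2 : chkB 1024 2 = true := by decide +kernel

lemma B1024_8 : chkB 1024 8 = true := by decide +kernel

lemma B1024_32 : chkB 1024 32 = true := by decide +kernel

lemma B1024_128 : chkB 1024 128 = true := by decide +kernel

lemma B1024_512 : chkB 1024 512 = true := by decide +kernel

lemma B1024_1088 : chkB 1024 1088 = true := by decide +kernel

lemma B1024_1472 : chkB 1024 1472 = true := by decide +kernel

lemma B1216_2 : chkB 1216 2 = true := by decide +kernel

lemma B1216_8 : chkB 1216 8 = true := by decide +kernel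

lemma B1216_32 : chkB 1216 32 = true := by decide +kernel

lemma B1216_128 : chkB 1216 128 = true := by decide +kernel

lemma B1216_512 : chkB 1216 512 = true := by decide +kernel

lemma B1216_1088 : chkB 1216 1088 = true := by decide +kernel

lemma B1216_1472 : chkB 1216 1472 = true := by decide +kernel

lemma allA : ∀ a ∈ [1, 4, 16, 64, 256, 304], chkA a = true := by
  simp [A1, A4, A16, A64, A256, A304]

lemma allBB : ∀ a ∈ [1, 4, 16, 64, 256, 1024, 1216], ∀ b ∈ [2, 8, 32, 128, 512, 1088, 1472],
    chkB a b = true := by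
  simp [B1_2, B1_8, B1_32, B1_128, B1_512, B1_1088, B1_1472, B4_2, B4_8, B4_32, B4_128, B4_512, B4_1088, B4_1472, B16_2, B16_8, B16_32, B16_128, B16_512, B16_1088, B16_1472, B64_2, B64_8, B64_32, B64_128, B64_512, B64_1088, B64_1472, B256_2, B256_8, B256_32, B256_128, B256_512, B256_1088, B256_1472, B1024_2, B1024_8, B1024_32, B1024_128, B1024_512, B1024_1088, B1024_1472, B1216_2, B1216_8, B1216_32, B1216_128, B1216_512, B1216_1088, B1216_1472]

end Pool.Agent.H46.Sq
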