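import Pool.Agent.H46.Sq.A

namespace Pool.Agent.H46.Sq

lemma red_eq (M s : ℕ) : red M s = if M ≤ s then s % M + M else s := by
  unfold red
  by_cases h : M ≤ s
  · rw [if_pos h, Nat.ble_eq_true_of_le h]; rfl
  · rw [if_neg h]
    have : Nat.ble M s = false := by
      rcases hb : Nat.ble M s with _ | _
      · rfl
      · exact absurd (Nat.le_of_ble_eq_true hb) h
    rw [this]; rfl

lemma red_add {M u u' v v' : ℕ} (hM : M = 240 ∨ M = 960) (h1 : red M u = red M u')
    (h2 : red M v = red M v') : red M (u + v) = red M (u' + v') := by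
  simp only [red_eq] at *
  rcases hM with rfl | rfl <;> split_ifs at * <;> omega

lemma red_mul {M u u' : ℕ} (hM : M = 240 ∨ M = 960) (h1 : red M u = red M u') (k : ℕ) :
    red M (u * k) = red M (u' * k) := by
  induction k with
  | zero => rfl
  | succ k ih => rw [Nat.mul_succ, Nat.mul_succ]; exact red_add hM ih h1

lemma red_red {M : ℕ} (hM : M = 240 ∨ M = 960) (u : ℕ) : red M (red M u) = red M u := by
  simp only [red_eq]
  rcases hM with rfl | rfl <;> split_ifs <;> omega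

lemma red_red' (u : ℕ) : red 240 (red 960 u) = red 240 u := by
  simp only [red_eq]
  split_ifs <;> omega

lemma pw (M c : ℕ) (hM : M = 240 ∨ M = 960) (L : List ℕ) (h0 : red M c ∈ L)
    (h1 : ∀ g ∈ L, red M (g * 4) ∈ L) (k : ℕ) : red M (c * 4 ^ k) ∈ L := by
  induction k with
  | zero => simpa using h0
  | succ k ih =>
    rw [pow_succ, ← mul_assoc, ← red_mul hM (red_red hM _) 4]
    exact h1 _ ih

lemma pw1 (k : ℕ) : red 960 (4 ^ k) ∈ [1, 4, 16, 64, 256, 1024, 1216] := by
  simpa using pw 960 1 (Or.inr rfl) [1, 4, 16, 64, 256, 1024, 1216] (by decide) (by decide) k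

lemma pw2 (k : ℕ) : red 960 (2 * 4 ^ k) ∈ [2, 8, 32, 128, 512, 1088, 1472] :=
  pw 960 2 (Or.inr rfl) _ (by decide) (by decide) k

lemma pw3 (k : ℕ) : red 240 (4 ^ k) ∈ [1, 4, 16, 64, 256, 304] := by
  simpa using pw 240 1 (Or.inl rfl) [1, 4, 16, 64, 256, 304] (by decide) (by decide) k

lemma gd_of {s k : ℕ} (h : red 960 s = red 960 (4 ^ k)) : gd s = true := by
  unfold gd
  rw [h]
  have := pw1 k
  generalize red 960 (4 ^ k) = t at this
  revert t
  decide +kernel

lemma gs_of {s k : ℕ} (h : red 240 s = red 240 (4 ^ k)) : gs s = true := by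
  unfold gs
  rw [h]
  have := pw3 k
  generalize red 240 (4 ^ k) = t at this
  revert t
  decide +kernel

def P (a b c : ℕ) : Prop := ∀ n : ℕ, 0 < n → ∃ x y z w k : ℕ,
  n ^ 2 = x ^ 2 + y ^ 2 + z ^ 2 + w ^ 2 ∧ a * x + b * y + c * z = 4 ^ k

def Q (g : ℕ → Bool) (a b c : ℕ) : Prop := ∀ n : ℕ, 0 < n → ∃ x y z w : ℕ,
  n ^ 2 = x ^ 2 + y ^ 2 + z ^ 2 + w ^ 2 ∧ g (a * x + b * y + c * z) = true

lemma Qd {a b c a' b' c' : ℕ} (h : P a b c) (ha : red 960 a' = red 960 a)
    (hb : red 960 b' = red 960 b) (hc : red 960 c' = red 960 c) : Q gd a' b' c' := fun n hn => by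
  obtain ⟨x, y, z, w, k, h1, h2⟩ := h n hn
  have hM : 960 = 240 ∨ 960 = 960 := Or.inr rfl
  exact ⟨x, y, z, w, h1, gd_of (k := k) (by
    rw [← h2]; exact red_add hM (red_add hM (red_mul hM ha _) (red_mul hM hb _)) (red_mul hM hc _))⟩

lemma Qs {a b c a' b' c' : ℕ} (h : P a b c) (ha : red 240 a' = red 240 a)
    (hb : red 240 b' = red 240 b) (hc : red 240 c' = red 240 c) : Q gs a' b' c' := fun n hn => by
  obtain ⟨x, y, z, w, k, h1, h2⟩ := h n hn
  have hM : 240 = 240 ∨ 240 = 960 := Or.inl rfl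
  exact ⟨x, y, z, w, h1, gs_of (k := k) (by
    rw [← h2]; exact red_add hM (red_add hM (red_mul hM ha _) (red_mul hM hb _)) (red_mul hM hc _))⟩

lemma bd {n x y z w : ℕ} (h : n ^ 2 = x ^ 2 + y ^ 2 + z ^ 2 + w ^ 2) :
    x ≤ n ∧ y ≤ n ∧ z ≤ n ∧ w ≤ n := by
  refine ⟨?_, ?_, ?_, ?_⟩ <;> refine (Nat.pow_le_pow_iff_left two_ne_zero).1 ?_ <;> omega

lemma lit3_of {g : ℕ → Bool} {a b c : ℕ} (h : Q g a b c) (h0 : g 0 = false) :
    lit3 g a b c = true := by
  obtain ⟨x, y, z, w, h1, h2⟩ := h 3 (by norm_num)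
  obtain ⟨b1, b2, b3, b4⟩ := bd h1
  interval_cases x <;> interval_cases y <;> interval_cases z <;> interval_cases w <;>
    first
      | omega
      | (simp only [mul_zero, mul_one, add_zero, zero_add] at h2
         simp_all [lit3])

lemma lit6_of {g : ℕ → Bool} {a b c : ℕ} (h : Q g a b c) (h0 : g 0 = false) :
    lit6 g a b c = true := by
  obtain ⟨x, y, z, w, h1, h2⟩ := h 6 (by norm_num)
  obtain ⟨b1, b2, b3, b4⟩ := bd h1
  interval_cases x <;> interval_cases y <;> interval_cases z <;> interval_cases w <;>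
    first
      | omega
      | (simp only [mul_zero, mul_one, add_zero, zero_add] at h2
         simp_all [lit6])
      | simp_all [lit6]

lemma anyB_of {n i : ℕ} {f : ℕ → Bool} (hi : i < n) (h : f i = true) : anyB n f = true := by
  induction n with
  | zero => omega
  | succ n ih =>
    show (f n || anyB n f) = true
    rcases Nat.lt_succ_iff_lt_or_eq.1 hi with h' | rfl
    · simp [ih h']
    · simp [h]

lemma of_allB {n : ℕ} {f : ℕ → Bool} (h : allB n f = true) {i : ℕ} (hi : i < n) : f i = true := by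
  induction n with
  | zero => omega
  | succ n ih =>
    have h' : (f n && allB n f) = true := h
    rw [Bool.and_eq_true] at h'
    rcases Nat.lt_succ_iff_lt_or_eq.1 hi with h2 | rfl
    · exact ih h'.2 h2
    · exact h'.1

lemma gen_of {a b c n : ℕ} (h : Q gd a b c) (h0 : 0 < n) (h1 : n < 30) : gen n a b c = true := by
  obtain ⟨x, y, z, w, h2, h3⟩ := h n h0
  obtain ⟨b1, b2, b3, b4⟩ := bd h2
  have key : ∀ w < 30, sq (w * w) = true := by decide +kernel
  simp only [pow_two] at h2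
  refine anyB_of (i := x) (by omega) (anyB_of (i := y) (by omega) ?_)
  rw [Bool.and_eq_true]
  refine ⟨Nat.ble_eq_true_of_le (show x * x + y * y ≤ n * n by omega), anyB_of (i := z) (by omega) ?_⟩
  rw [Bool.and_eq_true, Bool.and_eq_true]
  refine ⟨Nat.ble_eq_true_of_le (show x * x + y * y + z * z ≤ n * n by omega), ?_, h3⟩
  have : n * n - (x * x + y * y + z * z) = w * w := by omega
  exact (congrArg sq this).trans (key w (by omega))

lemma m4_eq {a b c : ℕ} (h : ¬ (a % 4 = 0 ∧ b % 4 = 0 ∧ c % 4 = 0)) : m4 a b c = false := by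
  by_contra hc
  apply h
  have : Nat.mod a 4 = 0 ∧ Nat.mod b 4 = 0 ∧ Nat.mod c 4 = 0 := by simpa [m4] using hc
  exact this

lemma beq0 {c : ℕ} (h : c ≠ 0) : Nat.beq c 0 = false := by
  rcases c with _ | c
  · exact absurd rfl h
  · rfl

lemma p1_of {g : ℕ → Bool} {a b c : ℕ} (h : Q g a b c) (h0 : g 0 = false)
    (h4 : ¬ (a % 4 = 0 ∧ b % 4 = 0 ∧ c % 4 = 0)) : p1 g a b c = true := by
  simp [p1, m4_eq h4, lit3_of h h0, lit6_of h h0]

lemma red4 {M : ℕ} (hM : M = 240 ∨ M = 960) (u : ℕ) : red M u % 4 = u % 4 := by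
  simp only [red_eq]
  rcases hM with rfl | rfl <;> split_ifs <;> omega

lemma caseA {a b c i k : ℕ} (h : P a b c) (hb : 0 < b) (hc : 0 < c) (ha : a = 4 ^ i)
    (hs : a + b + c = 4 ^ k) (h4 : ¬ (a % 4 = 0 ∧ b % 4 = 0 ∧ c % 4 = 0)) : False := by
  have hM : 240 = 240 ∨ 240 = 960 := Or.inl rfl
  have q := Qs h (red_red hM a) (red_red hM b) (red_red hM c)
  have h1 := p1_of q (by decide +kernel) (by simpa only [red4 hM] using h4)
  have h2 : red 240 (red 240 a + red 240 b + red 240 c) = red 240 (4 ^ k) := by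
    rw [← hs]; exact red_add hM (red_add hM (red_red hM a) (red_red hM b)) (red_red hM c)
  have h3 := gs_of h2
  have ha' := pw3 i
  rw [← ha] at ha'
  have hk := pw3 k
  rw [← h2] at hk
  have b1 : 0 < red 240 b ∧ red 240 b < 480 := by simp only [red_eq]; split_ifs <;> omega
  have c1 : 0 < red 240 c ∧ red 240 c < 480 := by simp only [red_eq]; split_ifs <;> omega
  have h5 := of_allB (allA _ ha') b1.2
  generalize red 240 a = a' at *
  generalize red 240 b = b' at *
  generalize red 240 c = c' at *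
  have a1 : a' ≤ 304 := by
    simp only [List.mem_cons, List.not_mem_nil, or_false] at ha'; omega
  have h6 : tA a' b' c' = false := by
    have e : gs (Nat.add (Nat.add a' b') c') = true := h3
    unfold tA
    rw [e, h1, beq0 (show c' ≠ 0 by omega)]; rfl
  have h7 : ∀ g ∈ [1, 4, 16, 64], tA a' b' ((g + 960 - (a' + b')) % 240) = true ∧
      tA a' b' ((g + 960 - (a' + b')) % 240 + 240) = true := by
    rw [beq0 (show b' ≠ 0 by omega), Bool.false_or, List.all_eq_true] at h5
    intro g hg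
    have := h5 g hg
    rw [Bool.and_eq_true] at this
    exact this
  have h8 : ∃ g ∈ [1, 4, 16, 64], c' = (g + 960 - (a' + b')) % 240 ∨
      c' = (g + 960 - (a' + b')) % 240 + 240 := by
    refine ⟨(a' + b' + c') % 240, ?_, by omega⟩
    simp only [red_eq, List.mem_cons, List.not_mem_nil, or_false] at hk ⊢
    split_ifs at hk <;> omega
  obtain ⟨g, hg, e | e⟩ := h8
  · rw [e, (h7 g hg).1] at h6; simp at h6
  · rw [e, (h7 g hg).2] at h6; simp at h6

lemma caseB {a b c i j : ℕ} (h : P a b c) (hc : 0 < c) (ha : a = 4 ^ i)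
    (hb : b = 2 * 4 ^ j) (h4 : ¬ (a % 4 = 0 ∧ b % 4 = 0 ∧ c % 4 = 0)) :
    a = 1 ∧ b = 2 ∧ c = 3 := by
  have hM : 240 = 240 ∨ 240 = 960 := Or.inl rfl
  have hM' : 960 = 240 ∨ 960 = 960 := Or.inr rfl
  have q := Qs h (red_red' a) (red_red' b) (red_red hM c)
  have q' := Qd h (red_red hM' a) (red_red hM' b) (red_red hM' c)
  have h1 := p1_of q (by decide +kernel) (by simpa only [red4 hM, red4 hM'] using h4)
  have h2 := p1_of q' (by decide +kernel) (by simpa only [red4 hM'] using h4)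
  have h3 : p2 (red 960 a) (red 960 b) (red 960 c) = true := by
    simp [p2, h2, gen_of q']
  have ha' := pw1 i
  rw [← ha] at ha'
  have hb' := pw2 j
  rw [← hb] at hb'
  have c1 : red 240 c ≠ 0 ∧ red 240 c < 480 := by simp only [red_eq]; split_ifs <;> omega
  have h5 := of_allB (allBB _ ha' _ hb') c1.2
  have h6 : fin (red 960 a) (red 960 b) (red 960 c) = true := by
    by_cases hc2 : 240 ≤ red 240 c
    · simp only [Nat.ble_eq_true_of_le hc2, h1, cond_true, Bool.not_true, Bool.false_or,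
        Bool.or_eq_true, Nat.beq_eq, c1.1, false_or] at h5
      have e : red 960 c = red 240 c + (red 960 c / 240 - 1) * 240 ∧ red 960 c / 240 - 1 < 7 := by
        simp only [red_eq] at hc2 ⊢
        split_ifs at hc2 ⊢ <;> omega
      have := of_allB h5 e.2
      rw [e.1]; exact this
    · have e0 : Nat.ble 240 (red 240 c) = false := by
        rcases hb : Nat.ble 240 (red 240 c) with _ | _
        · rfl
        · exact absurd (Nat.le_of_ble_eq_true hb) hc2
      simp only [e0, h1, cond_false, Bool.not_true, Bool.false_or,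
        Bool.or_eq_true, Nat.beq_eq, c1.1, false_or] at h5
      have e : red 960 c = red 240 c := by
        simp only [red_eq] at hc2 ⊢
        split_ifs at hc2 ⊢ <;> omega
      rw [e]; exact h5
  have h7 : red 960 a = 1 ∧ red 960 b = 2 ∧ red 960 c = 3 := by
    simpa [fin, h3] using h6
  simp only [red_eq] at h7
  split_ifs at h7 <;> omega

lemma P12 {a b c : ℕ} (h : P a b c) : P b a c := fun n hn => by
  obtain ⟨x, y, z, w, k, h1, h2⟩ := h n hn
  exact ⟨y, x, z, w, k, by omega, by omega⟩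

lemma P23 {a b c : ℕ} (h : P a b c) : P a c b := fun n hn => by
  obtain ⟨x, y, z, w, k, h1, h2⟩ := h n hn
  exact ⟨x, z, y, w, k, by omega, by omega⟩

lemma dbl {b k : ℕ} (h : b * 2 = 4 ^ k) : ∃ j, b = 2 * 4 ^ j := by
  rcases k with _ | k
  · omega
  · exact ⟨k, by rw [pow_succ] at h; omega⟩

lemma core {a b c i : ℕ} (h : P a b c) (hb : 0 < b) (hc : 0 < c) (ha : a = 4 ^ i)
    (h4 : ¬ (a % 4 = 0 ∧ b % 4 = 0 ∧ c % 4 = 0)) : ({a, b, c} : Multiset ℕ) = {1, 2, 3} := by
  obtain ⟨x, y, z, w, k, h1, h2⟩ := h 2 (by norm_num)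
  obtain ⟨b1, b2, b3, b4⟩ := bd h1
  have p0 : 0 < 4 ^ k := by positivity
  have : (x = 2 ∧ y = 0 ∧ z = 0) ∨ (x = 0 ∧ y = 2 ∧ z = 0) ∨ (x = 0 ∧ y = 0 ∧ z = 2) ∨
      (x = 0 ∧ y = 0 ∧ z = 0) ∨ (x = 1 ∧ y = 1 ∧ z = 1) := by
    interval_cases x <;> interval_cases y <;> interval_cases z <;> interval_cases w <;> omega
  rcases this with h' | h' | h' | h' | h' <;> obtain ⟨rfl, rfl, rfl⟩ := h'
  · exfalso
    have e : (2 : ℕ) ^ (2 * i + 1) = 2 ^ (2 * k) := by
      rw [pow_succ, pow_mul, pow_mul]; norm_num; omega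
    have := Nat.pow_right_injective (le_refl 2) e
    omega
  · obtain ⟨j, hj⟩ := dbl (b := b) (k := k) (by omega)
    obtain ⟨rfl, rfl, rfl⟩ := caseB h hc ha hj h4
    rfl
  · obtain ⟨j, hj⟩ := dbl (b := c) (k := k) (by omega)
    obtain ⟨rfl, rfl, rfl⟩ := caseB (P23 h) hb ha hj (by tauto)
    decide
  · omega
  · exact (caseA h hb hc ha (k := k) (by omega) h4).elim

lemma main {a b c : ℕ} (h : P a b c) (ha : 0 < a) (hb : 0 < b) (hc : 0 < c)
    (h4 : ¬ (a % 4 = 0 ∧ b % 4 = 0 ∧ c % 4 = 0)) : ({a, b, c} : Multiset ℕ) = {1, 2, 3} := by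
  obtain ⟨x, y, z, w, k, h1, h2⟩ := h 1 (by norm_num)
  obtain ⟨b1, b2, b3, b4⟩ := bd h1
  have p0 : 0 < 4 ^ k := by positivity
  have : (x = 1 ∧ y = 0 ∧ z = 0) ∨ (x = 0 ∧ y = 1 ∧ z = 0) ∨ (x = 0 ∧ y = 0 ∧ z = 1) ∨
      (x = 0 ∧ y = 0 ∧ z = 0) := by
    interval_cases x <;> interval_cases y <;> interval_cases z <;> interval_cases w <;> omega
  rcases this with h' | h' | h' | h' <;> obtain ⟨rfl, rfl, rfl⟩ := h'
  · exact core h hb hc (i := k) (by omega) h4
  · rw [← core (P12 h) ha hc (i := k) (by omega) (by tauto)]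
    exact Multiset.cons_swap _ _ _
  · rw [← core (P12 (P23 h)) ha hb (i := k) (by omega) (by tauto)]
    simp only [Multiset.insert_eq_cons, ← Multiset.cons_zero]
    rw [Multiset.cons_swap b c, Multiset.cons_swap a c]
  · omega

end Pool.Agent.H46.Sq
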